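import Mathlib
import Pool.Agent.Q80.KT.Stm

/-!
Job KT-KLIM (project KT of helper80): the limit of `aN`.
-/

open Finset Filter Topology
open scoped Classical

noncomputable section

namespace Q160.KT.KLIM

open Pool.Agent.Q80.KT Pool.Agent.Q287.SR

theorem desc_lim (j : ℕ) :
    Tendsto (fun n : ℕ => ((n - 1).descFactorial j : ℝ) / (n : ℝ) ^ j) atTop (𝓝 1) := by
  have h1 := isEquivalent_descFactorial (j + 1)
  have hz : ∀ᶠ x : ℕ in atTop, ((x : ℝ) ^ (j + 1)) ≠ 0 :=
    eventually_atTop.mpr ⟨1, fun n hn => pow_ne_zero _ (ne_of_gt (by exact_mod_cast hn))⟩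
  rw [Asymptotics.isEquivalent_iff_tendsto_one hz] at h1
  refine h1.congr' ?_
  filter_upwards [eventually_ge_atTop 1] with n hn
  obtain ⟨m, rfl⟩ : ∃ m, n = m + 1 := ⟨n - 1, by omega⟩
  simp only [Pi.div_apply, Nat.add_sub_cancel, Nat.succ_descFactorial_succ, pow_succ]
  have hm : ((m + 1 : ℕ) : ℝ) ≠ 0 := by positivity
  push_cast
  have hm' : (m : ℝ) + 1 ≠ 0 := by positivity
  field_simp

theorem autC_pos {k : ℕ} (F : SimpleGraph (Fin k)) (u : Fin k) : 0 < autC F u := by
  unfold autC
  rw [Finset.card_pos]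
  exact ⟨1, by simp⟩

theorem p_lim {p : ℕ → ℝ} (hp : Tendsto (fun n : ℕ => (n : ℝ) * p n) atTop (𝓝 1)) :
    Tendsto p atTop (𝓝 0) := by
  have h1 : Tendsto (fun n : ℕ => ((n : ℝ))⁻¹) atTop (𝓝 0) :=
    tendsto_inv_atTop_zero.comp tendsto_natCast_atTop_atTop
  have h2 := hp.mul h1
  rw [one_mul] at h2
  refine h2.congr' ?_
  filter_upwards [eventually_ge_atTop 1] with n hn
  have : (n : ℝ) ≠ 0 := by positivity
  field_simp

theorem one_sub_lim {p : ℕ → ℝ} (hp : Tendsto (fun n : ℕ => (n : ℝ) * p n) atTop (𝓝 1)) (k c m : ℕ) :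
    Tendsto (fun n : ℕ => (1 - p n) ^ (c + m * (n - k))) atTop (𝓝 (Real.exp (-(m : ℝ)))) := by
  have h0 := p_lim hp
  have h1 : Tendsto (fun n : ℕ => (1 + -p n) ^ n) atTop (𝓝 (Real.exp (-1))) := by
    apply Real.tendsto_one_add_pow_exp_of_tendsto
    have := hp.neg
    refine this.congr fun n => by ring
  have h2 : Tendsto (fun n : ℕ => 1 - p n) atTop (𝓝 1) := by
    have := h0.const_sub 1
    rwa [sub_zero] at this
  have h3 : Tendsto (fun n : ℕ => (1 - p n) ^ c * ((1 + -p n) ^ n / (1 - p n) ^ k) ^ m) atTop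
      (𝓝 (1 ^ c * (Real.exp (-1) / 1 ^ k) ^ m)) :=
    (h2.pow c).mul ((h1.div (h2.pow k) (by norm_num)).pow m)
  have h4 : (1 : ℝ) ^ c * (Real.exp (-1) / 1 ^ k) ^ m = Real.exp (-(m : ℝ)) := by
    rw [one_pow, one_pow, one_mul, div_one, ← Real.exp_nat_mul]
    congr 1
    ring
  rw [h4] at h3
  refine h3.congr' ?_
  have h5 : ∀ᶠ n : ℕ in atTop, 1 - p n ≠ 0 := h2.eventually_ne (by norm_num)
  filter_upwards [eventually_ge_atTop k, h5] with n hn hne
  rw [pow_add, mul_comm m, pow_mul]
  congr 2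
  rw [← sub_eq_add_neg, div_eq_iff (pow_ne_zero _ hne), ← pow_add]
  congr 1
  omega

theorem t_KLIM (h2 : S_ISO) (h3 : S_BPR) : S_KLIM := by
  intro k F u r p hr hp
  by_cases hF : F.Connected ∧ ∀ a, F.dist u a ≤ r
  swap
  · -- no ball is isomorphic
    have hK : Kval F u r = 0 := by
      unfold Kval
      rw [if_neg]
      rintro ⟨h4, h5⟩
      exact hF ⟨h4.connected, h5⟩
    rw [hK]
    refine tendsto_const_nhds.congr fun n => ?_
    unfold aN
    split_ifs with h
    · have h6 : (fun G : SimpleGraph (Fin n) => ind (BallIso F u G ⟨0, by omega⟩ r) *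
          ((sph G ⟨0, by omega⟩ r).card : ℝ)) = fun _ => (0 : ℝ) := by
        funext G
        have h7 : ¬ BallIso F u G ⟨0, by omega⟩ r := fun hB =>
          hF ⟨(h2 n k F u r G _ hB).1, (h2 n k F u r G _ hB).2.1⟩
        unfold ind
        rw [if_neg h7, zero_mul]
      rw [h6, Ex_const]
    · rfl
  · obtain ⟨hc, hd⟩ := hF
    have hk : 1 ≤ k := by
      have := u.isLt
      omega
    set e := F.edgeFinset.card with he
    set m := (univ.filter fun a => F.dist u a < r).card with hm
    set c := (univ.filter fun a => F.dist u a = r).card with hcc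
    have hecard : Nat.card F.edgeSet = e := by
      rw [he, Nat.card_eq_fintype_card, ← SimpleGraph.edgeFinset_card]
    have he1 : k ≤ e + 1 := by
      have := hc.card_vert_le_card_edgeSet_add_one
      rwa [hecard, Nat.card_eq_fintype_card, Fintype.card_fin] at this
    have hA := autC_pos F u
    have hA' : (autC F u : ℝ) ≠ 0 := by positivity
    have hlim : Tendsto (fun n : ℕ => (c : ℝ) / autC F u * ((((n - 1).descFactorial (k - 1) : ℝ) / (n : ℝ) ^ (k - 1)) *
        (((n : ℝ) * p n) ^ (k - 1) * (p n) ^ (e - (k - 1)) *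
          (1 - p n) ^ ((k.choose 2 - e) + m * (n - k))))) atTop
        (𝓝 ((c : ℝ) / autC F u * (1 * (1 ^ (k - 1) * 0 ^ (e - (k - 1)) * Real.exp (-(m : ℝ)))))) :=
      ((desc_lim (k - 1)).mul (((hp.pow (k - 1)).mul ((p_lim hp).pow (e - (k - 1)))).mul
        (one_sub_lim hp k (k.choose 2 - e) m))).const_mul _
    have hval : (c : ℝ) / autC F u * (1 * (1 ^ (k - 1) * 0 ^ (e - (k - 1)) * Real.exp (-(m : ℝ)))) =
        Kval F u r := by
      unfold Kval
      by_cases hT : F.IsTree
      · rw [if_pos ⟨hT, hd⟩]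
        have h8 := (SimpleGraph.isTree_iff_connected_and_card.mp hT).2
        rw [hecard, Nat.card_eq_fintype_card, Fintype.card_fin] at h8
        have h9 : e - (k - 1) = 0 := by omega
        rw [h9, ← hm, ← hcc]
        simp
        ring
      · rw [if_neg (fun h => hT h.1)]
        have h8 : ¬ (e + 1 = k) := by
          intro h
          apply hT
          rw [SimpleGraph.isTree_iff_connected_and_card]
          refine ⟨hc, ?_⟩
          rw [hecard, Nat.card_eq_fintype_card, Fintype.card_fin, h]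
        have h9 : e - (k - 1) ≠ 0 := by omega
        rw [zero_pow h9]
        ring
    rw [hval] at hlim
    refine hlim.congr' ?_
    filter_upwards [eventually_ge_atTop k] with n hn
    have hn1 : 1 ≤ n := by omega
    have hn0 : (n : ℝ) ≠ 0 := by positivity
    unfold aN
    rw [dif_pos hn1]
    have h10 : (fun G : SimpleGraph (Fin n) => ind (BallIso F u G ⟨0, by omega⟩ r) *
          ((sph G ⟨0, by omega⟩ r).card : ℝ)) =
        fun G : SimpleGraph (Fin n) => (c : ℝ) * ind (BallIso F u G ⟨0, by omega⟩ r) := by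
      funext G
      by_cases hB : BallIso F u G ⟨0, by omega⟩ r
      · rw [(h2 n k F u r G _ hB).2.2]
        ring
      · unfold ind
        rw [if_neg hB]
        ring
    rw [h10, Ex_mul]
    have h11 := h3 n k (p n) F u r ⟨0, by omega⟩ hr hn hc hd
    have h12 : Ex n (p n) (fun G : SimpleGraph (Fin n) => ind (BallIso F u G ⟨0, by omega⟩ r)) =
        ((n - 1).descFactorial (k - 1) : ℝ) * (p n ^ e * (1 - p n) ^ (k.choose 2 - e + m * (n - k))) /
          autC F u := by
      rw [eq_div_iff hA', mul_comm]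
      exact h11
    rw [h12]
    have h13 : p n ^ e = p n ^ (k - 1) * p n ^ (e - (k - 1)) := by
      rw [← pow_add]
      congr 1
      omega
    rw [h13, mul_pow]
    field_simp

end Q160.KT.KLIM
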