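import Mathlib
import Pool.Agent.Q80.KT.Stm

/-!
Job KT-LOW (project KT of helper80): `n tau` tends to infinity.
-/

open Finset Filter Topology
open scoped Classical

noncomputable section

namespace Q160.KT.LOW

open Pool.Agent.Q80.KT Pool.Agent.Q287.SR

theorem npN (lam : ℝ) {n : ℕ} (hn : 1 ≤ n) :
    (n : ℝ) * pN lam n = 1 + lam * (n : ℝ) ^ (-((1 : ℝ) / 3)) := by
  unfold pN
  have hn0 : (0 : ℝ) < n := by positivity
  have h1 : (n : ℝ) ^ ((4 : ℝ) / 3) = n * (n : ℝ) ^ ((1 : ℝ) / 3) := by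
    rw [show (4 : ℝ) / 3 = 1 + 1 / 3 by norm_num, Real.rpow_add hn0, Real.rpow_one]
  rw [h1, Real.rpow_neg hn0.le]
  have h2 : (n : ℝ) ^ ((1 : ℝ) / 3) ≠ 0 := by positivity
  field_simp

theorem npN_lim (lam : ℝ) : Tendsto (fun n : ℕ => (n : ℝ) * pN lam n) atTop (𝓝 1) := by
  have h1 : Tendsto (fun n : ℕ => (n : ℝ) ^ (-((1 : ℝ) / 3))) atTop (𝓝 0) :=
    (tendsto_rpow_neg_atTop (by norm_num)).comp tendsto_natCast_atTop_atTop
  have h2 := (h1.const_mul lam).const_add 1
  rw [mul_zero, add_zero] at h2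
  refine h2.congr' ?_
  filter_upwards [eventually_ge_atTop 1] with n hn
  rw [npN lam hn]

theorem pN_range (lam : ℝ) : ∀ᶠ n : ℕ in atTop, 0 ≤ pN lam n ∧ pN lam n ≤ 1 := by
  have h1 := (npN_lim lam).eventually (lt_mem_nhds (show (0 : ℝ) < 1 by norm_num))
  have h2 := (npN_lim lam).eventually (gt_mem_nhds (show (1 : ℝ) < 2 by norm_num))
  filter_upwards [h1, h2, eventually_ge_atTop 2] with n h3 h4 h5
  have h6 : (2 : ℝ) ≤ n := by exact_mod_cast h5
  constructor
  · by_contra h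
    push Not at h
    nlinarith
  · by_contra h
    push Not at h
    nlinarith

theorem ind_nonneg (P : Prop) : 0 ≤ ind P := by
  unfold ind
  split_ifs <;> norm_num

theorem ind_of {P : Prop} (h : P) : ind P = 1 := if_pos h

theorem ind_not {P : Prop} (h : ¬ P) : ind P = 0 := if_neg h

theorem tau_nonneg {n : ℕ} {p : ℝ} (h0 : 0 ≤ p) (h1 : p ≤ 1) : 0 ≤ tau n p := by
  unfold tau
  split_ifs
  · exact Ex_nonneg h0 h1 fun G => ind_nonneg _
  · exact le_refl _

/-- expected number of connected pairs -/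
theorem Ex_pairs (h2 : S_TAU) (n : ℕ) (p : ℝ) :
    Ex n p (fun G => ∑ v : Fin n, ∑ w : Fin n, ind (G.Reachable v w)) =
      n + n * (n - 1) * tau n p := by
  rw [Ex_sum]
  have h1 : ∀ v : Fin n, Ex n p (fun G => ∑ w : Fin n, ind (G.Reachable v w)) =
      1 - tau n p + n * tau n p := by
    intro v
    rw [Ex_sum]
    have h3 : ∀ w : Fin n, Ex n p (fun G => ind (G.Reachable v w)) =
        (if v = w then 1 - tau n p else 0) + tau n p := by
      intro w
      by_cases hvw : v = w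
      · subst hvw
        rw [if_pos rfl]
        have h4 : (fun G : SimpleGraph (Fin n) => ind (G.Reachable v v)) = fun _ => (1 : ℝ) := by
          funext G
          exact ind_of (SimpleGraph.Reachable.refl v)
        rw [h4, Ex_const]
        ring
      · rw [if_neg hvw, zero_add]
        exact (h2 n p).1 v w hvw
    rw [Finset.sum_congr rfl (fun w _ => h3 w), Finset.sum_add_distrib, Finset.sum_ite_eq]
    simp
  rw [Finset.sum_congr rfl (fun v _ => h1 v)]
  simp
  ring

/-- one large component gives many connected pairs -/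
theorem pairs_ge (n : ℕ) (D : ℝ) (hD : 0 ≤ D) (G : SimpleGraph (Fin n)) :
    D ^ 2 + (-(D ^ 2)) * ind (∀ v, ((comp G v).card : ℝ) < D) ≤
      ∑ v : Fin n, ∑ w : Fin n, ind (G.Reachable v w) := by
  by_cases h : ∀ v, ((comp G v).card : ℝ) < D
  · rw [ind_of h]
    have : 0 ≤ ∑ v : Fin n, ∑ w : Fin n, ind (G.Reachable v w) :=
      Finset.sum_nonneg fun v _ => Finset.sum_nonneg fun w _ => ind_nonneg _
    linarith
  · rw [ind_not h]
    push Not at h
    obtain ⟨v0, hv0⟩ := h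
    have h1 : ∑ v ∈ comp G v0, ∑ w ∈ comp G v0, ind (G.Reachable v w) = ((comp G v0).card : ℝ) ^ 2 := by
      have h2 : ∀ v ∈ comp G v0, ∑ w ∈ comp G v0, ind (G.Reachable v w) = ((comp G v0).card : ℝ) := by
        intro v hv
        have h3 : ∀ w ∈ comp G v0, ind (G.Reachable v w) = 1 := by
          intro w hw
          apply ind_of
          unfold comp at hv hw
          rw [Finset.mem_filter] at hv hw
          exact hv.2.symm.trans hw.2
        rw [Finset.sum_congr rfl h3]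
        simp
      rw [Finset.sum_congr rfl h2]
      simp
      ring
    have h4 : ∑ v ∈ comp G v0, ∑ w ∈ comp G v0, ind (G.Reachable v w) ≤
        ∑ v : Fin n, ∑ w : Fin n, ind (G.Reachable v w) := by
      calc ∑ v ∈ comp G v0, ∑ w ∈ comp G v0, ind (G.Reachable v w)
          ≤ ∑ v ∈ comp G v0, ∑ w : Fin n, ind (G.Reachable v w) :=
            Finset.sum_le_sum fun v _ => Finset.sum_le_sum_of_subset_of_nonneg (Finset.subset_univ _)
              fun w _ _ => ind_nonneg _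
        _ ≤ ∑ v : Fin n, ∑ w : Fin n, ind (G.Reachable v w) :=
            Finset.sum_le_sum_of_subset_of_nonneg (Finset.subset_univ _)
              fun v _ _ => Finset.sum_nonneg fun w _ => ind_nonneg _
    have h5 : D ^ 2 ≤ ((comp G v0).card : ℝ) ^ 2 := pow_le_pow_left₀ hD hv0 2
    linarith

theorem t_LOW (h1 : S_BIG) (h2 : S_TAU) : S_LOW := by
  intro lam
  obtain ⟨δ, hδ, hbig⟩ := h1 lam (1 / 2) (by norm_num)
  have hlow : Tendsto (fun n : ℕ => δ ^ 2 / 2 * (n : ℝ) ^ ((1 : ℝ) / 3) + (-1)) atTop atTop := by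
    apply tendsto_atTop_add_const_right
    apply Tendsto.const_mul_atTop (by positivity)
    exact (tendsto_rpow_atTop (by norm_num)).comp tendsto_natCast_atTop_atTop
  refine tendsto_atTop_mono' _ ?_ hlow
  filter_upwards [hbig, pN_range lam, eventually_ge_atTop 1] with n hn hp hn1
  obtain ⟨h0, h1'⟩ := hp
  have hn0 : (0 : ℝ) < n := by exact_mod_cast hn1
  set D : ℝ := δ * (n : ℝ) ^ ((2 : ℝ) / 3) with hD
  have hD0 : 0 ≤ D := by positivity
  have h3 := Ex_mono h0 h1' (pairs_ge n D hD0)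
  rw [Ex_pairs h2, Ex_add, Ex_const, Ex_mul] at h3
  have h4 : D ^ 2 * (1 / 2) ≤ (n : ℝ) + n * (n - 1) * tau n (pN lam n) := by
    have h5 : D ^ 2 * Ex n (pN lam n) (fun G => ind (∀ v, ((comp G v).card : ℝ) < D)) ≤
        D ^ 2 * (1 / 2) := mul_le_mul_of_nonneg_left hn (by positivity)
    linarith
  have h6 : D ^ 2 = δ ^ 2 * (n * (n : ℝ) ^ ((1 : ℝ) / 3)) := by
    rw [hD, mul_pow, ← Real.rpow_natCast ((n : ℝ) ^ ((2 : ℝ) / 3)) 2, ← Real.rpow_mul hn0.le]
    congr 1
    rw [show (2 : ℝ) / 3 * ((2 : ℕ) : ℝ) = 1 + 1 / 3 by norm_num, Real.rpow_add hn0, Real.rpow_one]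
  have h7 : (n : ℝ) * (δ ^ 2 / 2 * (n : ℝ) ^ ((1 : ℝ) / 3)) ≤ n * (1 + (n - 1) * tau n (pN lam n)) := by
    rw [h6] at h4
    linarith
  have h8 := le_of_mul_le_mul_left h7 hn0
  have h9 := tau_nonneg (n := n) h0 h1'
  linarith

end Q160.KT.LOW
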